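import Pool.Agent.Helper75.EC.Stmts

/-! # GENLIN, GL, GA, GB: generic solvability of the interpolation problems -/

open MvPolynomial

universe w

namespace Pool.Agent.Helper27.EC

open Pool.Agent.Helper75.EC

theorem st_GENLIN : ST_GENLIN.{w} := by
  classical
  intro K _ _ σ ι κ ρ _ _ _ hcard M ψ v f hf hind
  have e : κ ≃ Option ι := Fintype.equivOfCardEq (by rw [Fintype.card_option, hcard])
  let B : ρ → Matrix κ κ (MvPolynomial σ K) := fun r a b => (e a).elim (C (ψ r b)) (fun i => M i b)
  have hBrow : ∀ (r : ρ) (x : σ → K) (a : κ) (c : κ → K),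
      ((B r).map (eval x)).mulVec c a =
        (e a).elim (∑ k, ψ r k * c k) (fun i => ∑ k, eval x (M i k) * c k) := by
    intro r x a c
    change ∑ k, eval x (B r a k) * c k = _
    simp only [B]
    cases e a with
    | none => simp
    | some i => simp
  have hdet : ∀ (r : ρ) (x : σ → K), eval x (B r).det = ((B r).map (eval x)).det := by
    intro r x
    exact RingHom.map_det (eval x) (B r)
  have hD : ∀ r, (B r).det ≠ 0 := by
    intro r h0
    have h1 : ((B r).map (eval (v r))).det = 0 := by rw [← hdet, h0, map_zero]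
    obtain ⟨c, hc, hc0⟩ := Matrix.exists_mulVec_eq_zero_iff.mpr h1
    refine hc (hind r c ?_ ?_)
    · intro i
      have := congrFun hc0 (e.symm (some i))
      rw [hBrow, Equiv.apply_symm_apply] at this
      exact this
    · have := congrFun hc0 (e.symm none)
      rw [hBrow, Equiv.apply_symm_apply] at this
      exact this
  have hF : f * ∏ r, (B r).det ≠ 0 := mul_ne_zero hf (Finset.prod_ne_zero_iff.mpr fun r _ => hD r)
  obtain ⟨x, hx⟩ : ∃ x, eval x (f * ∏ r, (B r).det) ≠ 0 := by
    by_contra hc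
    push Not at hc
    exact hF (MvPolynomial.funext fun x => by rw [hc x, map_zero])
  rw [map_mul, map_prod] at hx
  have hx1 := left_ne_zero_of_mul hx
  have hx2 : ∀ r, eval x (B r).det ≠ 0 := fun r =>
    Finset.prod_ne_zero_iff.mp (right_ne_zero_of_mul hx) r (Finset.mem_univ r)
  let N : Matrix κ κ K := fun a b => (e a).elim 0 (fun i => eval x (M i b))
  have hN : N.det = 0 := by
    refine Matrix.det_eq_zero_of_row_eq_zero (e.symm none) fun b => ?_
    simp [N]
  obtain ⟨c, hc, hc0⟩ := Matrix.exists_mulVec_eq_zero_iff.mpr hN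
  have hcM : ∀ i, ∑ k, eval x (M i k) * c k = 0 := by
    intro i
    have h1 : N.mulVec c (e.symm (some i)) = ∑ k, eval x (M i k) * c k := by
      change ∑ k, N (e.symm (some i)) k * c k = _
      simp [N]
    rw [← h1, hc0]
    rfl
  refine ⟨x, c, hx1, hcM, fun r hr => hx2 r ?_⟩
  rw [hdet]
  refine Matrix.exists_mulVec_eq_zero_iff.mp ⟨c, hc, ?_⟩
  funext a
  rw [hBrow]
  cases e a with
  | none => exact hr
  | some i => exact hcM i

/-! ## Polynomials from coefficients -/

section

variable {K : Type w} [Field K]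

/-- The polynomial with coefficients `c`. -/
noncomputable def GEN_mk {m : ℕ} (c : Fin m → K) : Polynomial K :=
  ∑ k : Fin m, Polynomial.monomial (k : ℕ) (c k)

theorem GEN_coeff {m : ℕ} (c : Fin m → K) (k : Fin m) : (GEN_mk c).coeff k = c k := by
  unfold GEN_mk
  rw [Polynomial.finsetSum_coeff, Finset.sum_eq_single k]
  · exact Polynomial.coeff_monomial_same _ _
  · intro b _ hb
    rw [Polynomial.coeff_monomial, if_neg]
    intro h
    exact hb (Fin.ext h)
  · intro h
    exact absurd (Finset.mem_univ k) h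

theorem GEN_degree {m : ℕ} (c : Fin m → K) : (GEN_mk c).degree < m := by
  unfold GEN_mk
  refine lt_of_le_of_lt (Polynomial.degree_sum_le _ _) ?_
  refine (Finset.sup_lt_iff ?_).mpr fun k _ => ?_
  · exact WithBot.bot_lt_coe m
  · refine lt_of_le_of_lt (Polynomial.degree_monomial_le _ _) ?_
    exact_mod_cast k.2

theorem GEN_eval {m : ℕ} (c : Fin m → K) (t : K) :
    (GEN_mk c).eval t = ∑ k : Fin m, c k * t ^ (k : ℕ) := by
  unfold GEN_mk
  rw [Polynomial.eval_finsetSum]
  simp only [Polynomial.eval_monomial]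

theorem GEN_lin {m : ℕ} (c : Fin m → K) (t x : K) :
    ∑ k : Fin m, t ^ (k : ℕ) * x * c k = (GEN_mk c).eval t * x := by
  rw [GEN_eval, Finset.sum_mul]
  exact Finset.sum_congr rfl fun k _ => by ring

theorem GEN_eq_zero {m : ℕ} (c : Fin m → K) (h : GEN_mk c = 0) : c = 0 := by
  funext k
  rw [← GEN_coeff c k, h]
  simp

theorem GEN_natDegree_le {q : ℕ} (c : Fin (q + 1) → K) : (GEN_mk c).natDegree ≤ q := by
  rw [Polynomial.natDegree_le_iff_coeff_eq_zero]
  intro n hn
  refine Polynomial.coeff_eq_zero_of_degree_lt (lt_of_lt_of_le (GEN_degree c) ?_)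
  exact_mod_cast hn

theorem GEN_natDegree {q : ℕ} (c : Fin (q + 1) → K) (h : c (Fin.last q) ≠ 0) :
    (GEN_mk c).natDegree = q := by
  have h1 : (GEN_mk c).coeff q ≠ 0 := by
    have := GEN_coeff c (Fin.last q)
    rw [Fin.val_last] at this
    rw [this]
    exact h
  exact le_antisymm (GEN_natDegree_le c) (Polynomial.le_natDegree_of_ne_zero h1)

theorem GEN_zero {N : ℕ} {t : Fin N → K} (ht : Function.Injective t) {m : ℕ} (c : Fin m → K)
    (S : Finset (Fin N)) (hS : m ≤ S.card) (h : ∀ i ∈ S, (GEN_mk c).eval (t i) = 0) : c = 0 := by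
  apply GEN_eq_zero
  refine Polynomial.eq_zero_of_degree_lt_of_eval_index_eq_zero S ht.injOn
    (lt_of_lt_of_le (GEN_degree c) ?_) h
  exact_mod_cast hS

/-- the same with the top coefficient or one more value being zero -/
theorem GEN_zero' {N : ℕ} {t : Fin N → K} (ht : Function.Injective t) {q : ℕ}
    (c : Fin (q + 1) → K) (S : Finset (Fin N)) (hS : S.card = q)
    (h : ∀ i ∈ S, (GEN_mk c).eval (t i) = 0) (o : Option (Fin N))
    (ho : ∀ i, o = some i → i ∉ S ∧ (GEN_mk c).eval (t i) = 0)
    (hn : o = none → c (Fin.last q) = 0) : c = 0 := by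
  cases o with
  | none =>
    apply GEN_eq_zero
    refine Polynomial.eq_zero_of_degree_lt_of_eval_index_eq_zero S ht.injOn ?_ h
    rw [hS]
    by_contra hc
    push Not at hc
    have h1 : (GEN_mk c).natDegree = q := by
      exact le_antisymm (GEN_natDegree_le c) (Polynomial.le_natDegree_of_coe_le_degree hc)
    have h2 : (GEN_mk c).coeff q = 0 := by
      have := GEN_coeff c (Fin.last q)
      rw [Fin.val_last] at this
      rw [this]
      exact hn rfl
    have h3 : (GEN_mk c).leadingCoeff = 0 := by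
      unfold Polynomial.leadingCoeff
      rw [h1]
      exact h2
    rw [Polynomial.leadingCoeff_eq_zero] at h3
    rw [h3, Polynomial.degree_zero] at hc
    exact absurd hc (not_le.mpr (WithBot.bot_lt_coe q))
  | some i =>
    obtain ⟨h1, h2⟩ := ho i rfl
    refine GEN_zero ht c (insert i S) ?_ ?_
    · rw [Finset.card_insert_of_notMem h1, hS]
    · intro k hk
      rcases Finset.mem_insert.mp hk with rfl | hk
      · exact h2
      · exact h k hk

end

theorem GEN_split {N : ℕ} (J : Finset (Fin N)) (a : ℕ) (ha : a ≤ J.card) (o : Option (Fin N))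
    (h : ∀ i, o = some i → i ∈ J → 1 ≤ a) :
    ∃ J₁ ⊆ J, J₁.card = a ∧ ∀ i, o = some i → i ∈ J → i ∈ J₁ := by
  classical
  cases o with
  | none =>
    obtain ⟨J₁, h1, h2⟩ := Finset.exists_subset_card_eq ha
    exact ⟨J₁, h1, h2, fun i hi => absurd hi (by simp)⟩
  | some i =>
    by_cases hi : i ∈ J
    · obtain ⟨J₁, h1, h2, h3⟩ := Finset.exists_subsuperset_card_eq
        (Finset.singleton_subset_iff.mpr hi) (by rw [Finset.card_singleton]; exact h i rfl hi) ha
      refine ⟨J₁, h2, h3, fun i' hi' _ => ?_⟩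
      rw [← Option.some.inj hi']
      exact Finset.singleton_subset_iff.mp h1
    · obtain ⟨J₁, h1, h2⟩ := Finset.exists_subset_card_eq ha
      exact ⟨J₁, h1, h2, fun i' hi' hJ => absurd (Option.some.inj hi' ▸ hJ) hi⟩

/-- the linear forms given by the top coefficient and by the value at the point number i -/
def GEN_psi {K : Type w} [Field K] {N : ℕ} (t : Fin N → K) (q : ℕ) (o : Option (Fin N))
    (k : Fin (q + 1)) : K :=
  o.elim (if k = Fin.last q then 1 else 0) (fun i => t i ^ (k : ℕ))

theorem GEN_psi_none {K : Type w} [Field K] {N : ℕ} (t : Fin N → K) (q : ℕ)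
    (c : Fin (q + 1) → K) : ∑ k, GEN_psi t q none k * c k = c (Fin.last q) := by
  simp [GEN_psi]

theorem GEN_psi_some {K : Type w} [Field K] {N : ℕ} (t : Fin N → K) (q : ℕ) (i : Fin N)
    (c : Fin (q + 1) → K) : ∑ k, GEN_psi t q (some i) k * c k = (GEN_mk c).eval (t i) := by
  rw [GEN_eval]
  exact Finset.sum_congr rfl fun k _ => by
    change t i ^ (k : ℕ) * c k = _
    ring

theorem GEN_trip {K : Type w} {N : ℕ} (x : Fin N × Fin 3 → K) :
    trip (fun i => x (i, 0)) (fun i => x (i, 1)) (fun i => x (i, 2)) = x := by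
  funext ⟨i, k⟩
  fin_cases k <;> rfl

theorem st_GL (hG : ST_GENLIN.{w}) : ST_GL.{w} := by
  classical
  intro K _ _ N t ht f hf q J hJ
  have hsp : ∀ o : Option (Fin N), ∃ J₁ ⊆ J, J₁.card = q ∧ ∀ i, o = some i → i ∈ J → i ∈ J₁ := by
    intro o
    refine GEN_split J q (by omega) o fun i _ hi => ?_
    have : 0 < J.card := Finset.card_pos.mpr ⟨i, hi⟩
    omega
  choose J₁ hJ1 hJ1c hJ1o using hsp
  let M : Matrix J (Fin (q + 1) ⊕ Fin q) (MvPolynomial (Fin N × Fin 3) K) := fun i k =>
    Sum.elim (fun k : Fin (q + 1) => C (t i ^ (k : ℕ)) * X ((i : Fin N), (0 : Fin 3)))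
      (fun k : Fin q => C (t i ^ (k : ℕ)) * X ((i : Fin N), (1 : Fin 3))) k
  have hM : ∀ (x : Fin N × Fin 3 → K) (c : Fin (q + 1) ⊕ Fin q → K) (i : J),
      ∑ k, eval x (M i k) * c k =
        (GEN_mk fun k => c (Sum.inl k)).eval (t i) * x (i, 0) +
          (GEN_mk fun k => c (Sum.inr k)).eval (t i) * x (i, 1) := by
    intro x c i
    rw [Fintype.sum_sum_type, ← GEN_lin, ← GEN_lin]
    simp [M]
  obtain ⟨x, c, hx, hc, hψ⟩ := hG K (Fin N × Fin 3) J (Fin (q + 1) ⊕ Fin q) (Option (Fin N))
    (by simp only [Fintype.card_sum, Fintype.card_fin, Fintype.card_coe]; omega) M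
    (fun o k => Sum.elim (GEN_psi t q o) (fun _ => 0) k)
    (fun o => trip (fun i => if i ∈ J₁ o then 0 else 1) (fun _ => 1) (fun _ => 0)) f hf (by
      intro o c h1 h2
      have hR : (fun k => c (Sum.inr k)) = 0 := by
        refine GEN_zero ht _ (J₁ o) (hJ1c o).ge fun i hi => ?_
        have := h1 ⟨i, hJ1 o hi⟩
        rw [hM] at this
        simpa [trip, hi] using this
      have hP : (fun k => c (Sum.inl k)) = 0 := by
        have hval : ∀ i ∈ J \ J₁ o, (GEN_mk fun k => c (Sum.inl k)).eval (t i) = 0 := by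
          intro i hi
          have := h1 ⟨i, (Finset.mem_sdiff.mp hi).1⟩
          rw [hM, hR] at this
          have h0 : GEN_mk (0 : Fin q → K) = 0 := by simp [GEN_mk]
          rw [h0] at this
          simpa [trip, (Finset.mem_sdiff.mp hi).2] using this
        refine GEN_zero' ht _ (J \ J₁ o) ?_ hval o ?_ ?_
        · rw [Finset.card_sdiff_of_subset (hJ1 o), hJ1c o]
          omega
        · rintro i rfl
          refine ⟨fun hi => ?_, ?_⟩
          · exact (Finset.mem_sdiff.mp hi).2 (hJ1o _ i rfl (Finset.mem_sdiff.mp hi).1)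
          · rw [Fintype.sum_sum_type] at h2
            simpa [GEN_psi_some] using h2
        · rintro rfl
          rw [Fintype.sum_sum_type] at h2
          simpa [GEN_psi_none] using h2
      funext k
      cases k with
      | inl k => exact congrFun hP k
      | inr k => exact congrFun hR k)
  refine ⟨fun i => x (i, 0), fun i => x (i, 1), fun i => x (i, 2), GEN_mk fun k => c (Sum.inl k),
    GEN_mk fun k => c (Sum.inr k), ?_, ?_, GEN_degree _, ?_, ?_⟩
  · rw [GEN_trip]
    exact hx
  · refine GEN_natDegree _ ?_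
    have := hψ none
    rw [Fintype.sum_sum_type] at this
    simpa [GEN_psi_none] using this
  · intro i
    have := hψ (some i)
    rw [Fintype.sum_sum_type] at this
    simpa [GEN_psi_some] using this
  · intro i hi
    have := hc ⟨i, hi⟩
    rw [hM] at this
    exact this

theorem st_GA (hG : ST_GENLIN.{w}) : ST_GA.{w} := by
  classical
  intro K _ _ N t ht f hf j J hJ
  have hsp : ∀ o : Option (Fin N), ∃ J₁ ⊆ J, J₁.card = j + 1 ∧
      ∀ i, o = some i → i ∈ J → i ∈ J₁ := by
    intro o
    exact GEN_split J (j + 1) (by omega) o fun i _ hi => by omega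
  choose J₁ hJ1 hJ1c hJ1o using hsp
  have hsp2 : ∀ o : Option (Fin N), ∃ J₂ ⊆ J \ J₁ o, J₂.card = j + 1 := by
    intro o
    refine Finset.exists_subset_card_eq ?_
    rw [Finset.card_sdiff_of_subset (hJ1 o), hJ1c o]
    omega
  choose J₂ hJ2 hJ2c using hsp2
  let J₃ : Option (Fin N) → Finset (Fin N) := fun o => (J \ J₁ o) \ J₂ o
  have hJ3c : ∀ o, (J₃ o).card = j + 1 := by
    intro o
    rw [Finset.card_sdiff_of_subset (hJ2 o), Finset.card_sdiff_of_subset (hJ1 o), hJ1c o,
      hJ2c o]
    omega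
  have h12 : ∀ o i, i ∈ J₁ o → i ∉ J₂ o := fun o i h1 h2 => (Finset.mem_sdiff.mp (hJ2 o h2)).2 h1
  have h13 : ∀ o i, i ∈ J₁ o → i ∉ J₃ o := fun o i h1 h2 =>
    (Finset.mem_sdiff.mp (Finset.mem_sdiff.mp h2).1).2 h1
  have h23 : ∀ o i, i ∈ J₂ o → i ∉ J₃ o := fun o i h1 h2 => (Finset.mem_sdiff.mp h2).2 h1
  have hJ2J : ∀ o i, i ∈ J₂ o → i ∈ J := fun o i h => (Finset.mem_sdiff.mp (hJ2 o h)).1
  have hJ3J : ∀ o i, i ∈ J₃ o → i ∈ J := fun o i h =>
    (Finset.mem_sdiff.mp (Finset.mem_sdiff.mp h).1).1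
  let q : ℕ := 2 * j + 2
  let M : Matrix (J × Fin 2) (Fin (q + 1) ⊕ (Fin q ⊕ Fin q)) (MvPolynomial (Fin N × Fin 3) K) :=
    fun i k => Sum.elim
      (fun k : Fin (q + 1) => C (t i.1 ^ (k : ℕ)) *
        X ((i.1 : Fin N), if i.2 = 0 then (0 : Fin 3) else 2))
      (Sum.elim
        (fun k : Fin q => if i.2 = 0 then C (t i.1 ^ (k : ℕ)) * X ((i.1 : Fin N), (1 : Fin 3))
          else 0)
        (fun k : Fin q => if i.2 = 0 then 0 else
          C (t i.1 ^ (k : ℕ)) * X ((i.1 : Fin N), (1 : Fin 3)))) k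
  have hM0 : ∀ (x : Fin N × Fin 3 → K) (c : Fin (q + 1) ⊕ (Fin q ⊕ Fin q) → K) (i : J),
      ∑ k, eval x (M (i, 0) k) * c k =
        (GEN_mk fun k => c (Sum.inl k)).eval (t i) * x (i, 0) +
          (GEN_mk fun k => c (Sum.inr (Sum.inl k))).eval (t i) * x (i, 1) := by
    intro x c i
    rw [Fintype.sum_sum_type, Fintype.sum_sum_type, ← GEN_lin, ← GEN_lin]
    simp [M]
  have hM1 : ∀ (x : Fin N × Fin 3 → K) (c : Fin (q + 1) ⊕ (Fin q ⊕ Fin q) → K) (i : J),
      ∑ k, eval x (M (i, 1) k) * c k =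
        (GEN_mk fun k => c (Sum.inl k)).eval (t i) * x (i, 2) +
          (GEN_mk fun k => c (Sum.inr (Sum.inr k))).eval (t i) * x (i, 1) := by
    intro x c i
    rw [Fintype.sum_sum_type, Fintype.sum_sum_type, ← GEN_lin, ← GEN_lin]
    simp [M]
  obtain ⟨x, c, hx, hc, hψ⟩ := hG K (Fin N × Fin 3) (J × Fin 2) (Fin (q + 1) ⊕ (Fin q ⊕ Fin q))
    (Option (Fin N))
    (by
      simp only [Fintype.card_sum, Fintype.card_fin, Fintype.card_coe, Fintype.card_prod]
      omega) M
    (fun o k => Sum.elim (GEN_psi t q o) (fun _ => 0) k)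
    (fun o => trip (fun i => if i ∈ J₂ o then 1 else 0) (fun _ => 1)
      (fun i => if i ∈ J₃ o then 1 else 0)) f hf (by
      intro o c h1 h2
      have hR : (fun k => c (Sum.inr (Sum.inl k))) = 0 := by
        refine GEN_zero ht _ (J₁ o ∪ J₃ o) ?_ fun i hi => ?_
        · rw [Finset.card_union_of_disjoint (Finset.disjoint_left.mpr fun i h3 h4 =>
            h13 o i h3 h4), hJ1c o, hJ3c o]
          omega
        · rcases Finset.mem_union.mp hi with hi | hi
          · have := h1 (⟨i, hJ1 o hi⟩, 0)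
            rw [hM0] at this
            simpa [trip, h12 o i hi] using this
          · have := h1 (⟨i, hJ3J o i hi⟩, 0)
            rw [hM0] at this
            have h5 : i ∉ J₂ o := fun h6 => h23 o i h6 hi
            simpa [trip, h5] using this
      have hR' : (fun k => c (Sum.inr (Sum.inr k))) = 0 := by
        refine GEN_zero ht _ (J₁ o ∪ J₂ o) ?_ fun i hi => ?_
        · rw [Finset.card_union_of_disjoint (Finset.disjoint_left.mpr fun i h3 h4 =>
            h12 o i h3 h4), hJ1c o, hJ2c o]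
          omega
        · rcases Finset.mem_union.mp hi with hi | hi
          · have := h1 (⟨i, hJ1 o hi⟩, 1)
            rw [hM1] at this
            simpa [trip, h13 o i hi] using this
          · have := h1 (⟨i, hJ2J o i hi⟩, 1)
            rw [hM1] at this
            simpa [trip, h23 o i hi] using this
      have h0 : GEN_mk (0 : Fin q → K) = 0 := by simp [GEN_mk]
      have hP : (fun k => c (Sum.inl k)) = 0 := by
        refine GEN_zero' ht _ (J₂ o ∪ J₃ o) ?_ ?_ o ?_ ?_
        · rw [Finset.card_union_of_disjoint (Finset.disjoint_left.mpr fun i h3 h4 =>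
            h23 o i h3 h4), hJ2c o, hJ3c o]
          omega
        · intro i hi
          rcases Finset.mem_union.mp hi with hi | hi
          · have := h1 (⟨i, hJ2J o i hi⟩, 0)
            rw [hM0, hR, h0] at this
            simpa [trip, hi] using this
          · have := h1 (⟨i, hJ3J o i hi⟩, 1)
            rw [hM1, hR', h0] at this
            simpa [trip, hi] using this
        · rintro i rfl
          refine ⟨fun hi => ?_, ?_⟩
          · rcases Finset.mem_union.mp hi with hi | hi
            · exact h12 _ i (hJ1o _ i rfl (hJ2J _ i hi)) hi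
            · exact h13 _ i (hJ1o _ i rfl (hJ3J _ i hi)) hi
          · rw [Fintype.sum_sum_type] at h2
            simpa [GEN_psi_some] using h2
        · rintro rfl
          rw [Fintype.sum_sum_type] at h2
          simpa [GEN_psi_none] using h2
      funext k
      rcases k with k | k | k
      · exact congrFun hP k
      · exact congrFun hR k
      · exact congrFun hR' k)
  refine ⟨fun i => x (i, 0), fun i => x (i, 1), fun i => x (i, 2), GEN_mk fun k => c (Sum.inl k),
    GEN_mk fun k => c (Sum.inr (Sum.inl k)), GEN_mk fun k => c (Sum.inr (Sum.inr k)),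
    ?_, ?_, GEN_degree _, GEN_degree _, ?_, ?_⟩
  · rw [GEN_trip]
    exact hx
  · refine GEN_natDegree _ ?_
    have := hψ none
    rw [Fintype.sum_sum_type] at this
    simpa [GEN_psi_none] using this
  · intro i
    have := hψ (some i)
    rw [Fintype.sum_sum_type] at this
    simpa [GEN_psi_some] using this
  · intro i hi
    have h3 := hc (⟨i, hi⟩, 0)
    have h4 := hc (⟨i, hi⟩, 1)
    rw [hM0] at h3
    rw [hM1] at h4
    exact ⟨h3, h4⟩

theorem st_GB (hG : ST_GENLIN.{w}) : ST_GB.{w} := by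
  classical
  intro K _ _ N t ht f hf j J hJ
  have hsp : ∀ o : Option (Fin N), ∃ J₂ ⊆ J, J₂.card = j + 1 ∧
      ∀ i, o = some i → i ∈ J → i ∈ J₂ := by
    intro o
    exact GEN_split J (j + 1) (by omega) o fun i _ hi => by omega
  choose J₂ hJ2 hJ2c hJ2o using hsp
  have hsp2 : ∀ o : Option (Fin N), ∃ J₁ ⊆ J \ J₂ o, J₁.card = j := by
    intro o
    refine Finset.exists_subset_card_eq ?_
    rw [Finset.card_sdiff_of_subset (hJ2 o), hJ2c o]
    omega
  choose J₁ hJ1 hJ1c using hsp2
  let J₃ : Option (Fin N) → Finset (Fin N) := fun o => (J \ J₂ o) \ J₁ o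
  have hJ3c : ∀ o, (J₃ o).card = j := by
    intro o
    rw [Finset.card_sdiff_of_subset (hJ1 o), Finset.card_sdiff_of_subset (hJ2 o), hJ1c o,
      hJ2c o]
    omega
  have h12 : ∀ o i, i ∈ J₁ o → i ∉ J₂ o := fun o i h1 h2 => (Finset.mem_sdiff.mp (hJ1 o h1)).2 h2
  have h23 : ∀ o i, i ∈ J₂ o → i ∉ J₃ o := fun o i h1 h2 =>
    (Finset.mem_sdiff.mp (Finset.mem_sdiff.mp h2).1).2 h1
  have h13 : ∀ o i, i ∈ J₁ o → i ∉ J₃ o := fun o i h1 h2 => (Finset.mem_sdiff.mp h2).2 h1
  have hJ1J : ∀ o i, i ∈ J₁ o → i ∈ J := fun o i h => (Finset.mem_sdiff.mp (hJ1 o h)).1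
  have hJ3J : ∀ o i, i ∈ J₃ o → i ∈ J := fun o i h =>
    (Finset.mem_sdiff.mp (Finset.mem_sdiff.mp h).1).1
  let M : Matrix J (Fin (j + 1) ⊕ (Fin (j + 1) ⊕ Fin j)) (MvPolynomial (Fin N × Fin 3) K) :=
    fun i k => Sum.elim
      (fun k : Fin (j + 1) => C (t i ^ (k : ℕ)) * X ((i : Fin N), (2 : Fin 3)))
      (Sum.elim
        (fun k : Fin (j + 1) => C (t i ^ (k : ℕ)) * X ((i : Fin N), (0 : Fin 3)))
        (fun k : Fin j => C (t i ^ (k : ℕ)) * X ((i : Fin N), (1 : Fin 3)))) k
  have hM : ∀ (x : Fin N × Fin 3 → K) (c : Fin (j + 1) ⊕ (Fin (j + 1) ⊕ Fin j) → K) (i : J),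
      ∑ k, eval x (M i k) * c k =
        (GEN_mk fun k => c (Sum.inl k)).eval (t i) * x (i, 2) +
          ((GEN_mk fun k => c (Sum.inr (Sum.inl k))).eval (t i) * x (i, 0) +
          (GEN_mk fun k => c (Sum.inr (Sum.inr k))).eval (t i) * x (i, 1)) := by
    intro x c i
    rw [Fintype.sum_sum_type, Fintype.sum_sum_type, ← GEN_lin, ← GEN_lin, ← GEN_lin]
    simp [M]
  obtain ⟨x, c, hx, hc, hψ⟩ := hG K (Fin N × Fin 3) J (Fin (j + 1) ⊕ (Fin (j + 1) ⊕ Fin j))
    (Option (Fin N))
    (by
      simp only [Fintype.card_sum, Fintype.card_fin, Fintype.card_coe]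
      omega) M
    (fun o k => Sum.elim (GEN_psi t j o) (fun _ => 0) k)
    (fun o => trip (fun i => if i ∈ J₂ o then 1 else 0) (fun i => if i ∈ J₁ o then 1 else 0)
      (fun i => if i ∈ J₃ o then 1 else 0)) f hf (by
      intro o c h1 h2
      have hR : (fun k => c (Sum.inr (Sum.inr k))) = 0 := by
        refine GEN_zero ht _ (J₁ o) (hJ1c o).ge fun i hi => ?_
        have := h1 ⟨i, hJ1J o i hi⟩
        rw [hM] at this
        simpa [trip, hi, h12 o i hi, h13 o i hi] using this
      have hR' : (fun k => c (Sum.inr (Sum.inl k))) = 0 := by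
        refine GEN_zero ht _ (J₂ o) (hJ2c o).ge fun i hi => ?_
        have := h1 ⟨i, hJ2 o hi⟩
        rw [hM] at this
        have h5 : i ∉ J₁ o := fun h6 => h12 o i h6 hi
        simpa [trip, hi, h5, h23 o i hi] using this
      have hP : (fun k => c (Sum.inl k)) = 0 := by
        refine GEN_zero' ht _ (J₃ o) (hJ3c o) ?_ o ?_ ?_
        · intro i hi
          have := h1 ⟨i, hJ3J o i hi⟩
          rw [hM] at this
          have h5 : i ∉ J₁ o := fun h6 => h13 o i h6 hi
          have h6 : i ∉ J₂ o := fun h7 => h23 o i h7 hi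
          simpa [trip, hi, h5, h6] using this
        · rintro i rfl
          refine ⟨fun hi => h23 _ i (hJ2o _ i rfl (hJ3J _ i hi)) hi, ?_⟩
          rw [Fintype.sum_sum_type] at h2
          simpa [GEN_psi_some] using h2
        · rintro rfl
          rw [Fintype.sum_sum_type] at h2
          simpa [GEN_psi_none] using h2
      funext k
      rcases k with k | k | k
      · exact congrFun hP k
      · exact congrFun hR' k
      · exact congrFun hR k)
  have hlast : c (Sum.inl (Fin.last j)) ≠ 0 := by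
    have := hψ none
    rw [Fintype.sum_sum_type] at this
    simpa [GEN_psi_none] using this
  refine ⟨fun i => x (i, 0), fun i => x (i, 1), fun i => x (i, 2), GEN_mk fun k => c (Sum.inl k),
    GEN_mk fun k => c (Sum.inr (Sum.inr k)), GEN_mk fun k => c (Sum.inr (Sum.inl k)),
    ?_, GEN_natDegree _ hlast, ?_, GEN_degree _, ?_, ?_, ?_⟩
  · rw [GEN_trip]
    exact hx
  · intro h
    exact hlast (congrFun (GEN_eq_zero _ h) (Fin.last j))
  · exact GEN_natDegree_le _
  · intro i
    have := hψ (some i)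
    rw [Fintype.sum_sum_type] at this
    simpa [GEN_psi_some] using this
  · intro i hi
    have := hc ⟨i, hi⟩
    rw [hM] at this
    rw [add_assoc]
    exact this

end Pool.Agent.Helper27.EC
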