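import Pool.Agent.Helper75.EC.Stmts

/-! # IL, IA, IB: the inequalities for invariant polynomials -/

open MvPolynomial

universe w

namespace Pool.Agent.Helper27.EC

open Pool.Agent.Helper75.EC

theorem INEQ_pth_eval {K σ : Type*} [Field K] (f : MvPolynomial σ K) (p d : σ → K) (ξ : K) :
    (pth f p d).eval ξ = eval (fun s => p s + ξ * d s) f := by
  unfold pth
  rw [← Polynomial.coe_evalRingHom]
  induction f using MvPolynomial.induction_on with
  | C c => simp
  | add f g hf hg => simp only [map_add, hf, hg]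
  | mul_X f s hf =>
    simp only [map_mul, hf, aeval_X, eval_X, Polynomial.coe_evalRingHom, Polynomial.eval_add,
      Polynomial.eval_mul, Polynomial.eval_C, Polynomial.eval_X]

theorem INEQ_div {K : Type w} [Field K] {σ : Type} (f : MvPolynomial σ K) (p d : σ → K)
    (S : Finset σ) (hS : ∀ s ∈ S, p s + d s = 0) (e : ℕ)
    (he : ∀ m ∈ f.support, e ≤ ∑ s ∈ S, m s) :
    (1 - Polynomial.X : Polynomial K) ^ e ∣ pth f p d := by
  classical
  unfold pth
  rw [MvPolynomial.aeval_def, MvPolynomial.eval₂_eq]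
  refine Finset.dvd_sum fun m hm => ?_
  refine Dvd.dvd.mul_left ?_ _
  have h1 : ∏ s ∈ m.support, (Polynomial.C (p s) + Polynomial.X * Polynomial.C (d s)) ^ m s =
      ∏ s ∈ m.support ∪ S, (Polynomial.C (p s) + Polynomial.X * Polynomial.C (d s)) ^ m s := by
    refine Finset.prod_subset Finset.subset_union_left fun s _ hs => ?_
    rw [Finsupp.notMem_support_iff.mp hs, pow_zero]
  rw [h1, ← Finset.prod_sdiff (Finset.subset_union_right (s₁ := m.support) (s₂ := S))]
  refine Dvd.dvd.mul_left ?_ _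
  have h2 : ∏ s ∈ S, (Polynomial.C (p s) + Polynomial.X * Polynomial.C (d s)) ^ m s =
      ∏ s ∈ S, (Polynomial.C (p s)) ^ m s * (1 - Polynomial.X : Polynomial K) ^ m s := by
    refine Finset.prod_congr rfl fun s hs => ?_
    rw [← mul_pow]
    congr 1
    have h3 : d s = - p s := by linear_combination hS s hs
    rw [h3, Polynomial.C_neg]
    ring
  rw [h2, Finset.prod_mul_distrib, Finset.prod_pow_eq_pow_sum]
  exact Dvd.dvd.mul_left (pow_dvd_pow _ (he m hm)) _

theorem INEQ_le {K : Type w} [Field K] {σ : Type} (f : MvPolynomial σ K) (p d : σ → K)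
    (S : Finset σ) (hS : ∀ s ∈ S, p s + d s = 0) (e : ℕ)
    (he : ∀ m ∈ f.support, e ≤ ∑ s ∈ S, m s) (hf : eval p f ≠ 0) (D : ℕ)
    (hD : (pth f p d).natDegree ≤ D) : e ≤ D := by
  have h1 := INEQ_div f p d S hS e he
  have h2 : pth f p d ≠ 0 := by
    intro h
    have h3 := INEQ_pth_eval f p d 0
    rw [h] at h3
    simp only [Polynomial.eval_zero, zero_mul, add_zero] at h3
    exact hf h3.symm
  have h4 := Polynomial.natDegree_le_of_dvd h1 h2
  have h5 : ((1 - Polynomial.X : Polynomial K) ^ e).natDegree = e := by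
    rw [Polynomial.natDegree_pow]
    have : (1 - Polynomial.X : Polynomial K).natDegree = 1 := by
      rw [← neg_sub, Polynomial.natDegree_neg, ← Polynomial.C_1, Polynomial.natDegree_X_sub_C]
    rw [this, mul_one]
  omega

theorem st_IL (hRA : ST_RA.{w}) (hGL : ST_GL.{w}) : ST_IL.{w} := by
  classical
  intro K _ _ N t δ a b W f hf ht hW q J hJ
  obtain ⟨x, y, z, P, R, hxf, hP, hR, hPt, hJe⟩ := hGL K N t ht f hf.ne q J hJ
  have h1 := hRA K N t δ a b W f hf hW q P R 0 hP hR (by
    rw [Polynomial.degree_zero]; exact WithBot.bot_lt_coe q) hPt x y z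
  have h2 := INEQ_le f _ _ (J.image fun i => (i, (0 : Fin 3))) ?_ (∑ i ∈ J, δ i - (a + b)) ?_ hxf
    _ h1
  · omega
  · intro s hs
    obtain ⟨i, hi, rfl⟩ := Finset.mem_image.mp hs
    have h3 := hJe i hi
    have h4 := hPt i
    change x i + R.eval (t i) / P.eval (t i) * y i = 0
    field_simp
    linear_combination h3
  · intro m hm
    rw [Finset.sum_image (by intro i _ j _ h; exact (Prod.mk.inj h).1)]
    have h5 : ∑ i ∈ J, δ i = ∑ i ∈ J, m (i, 0) + (∑ i ∈ J, m (i, 1) + ∑ i ∈ J, m (i, 2)) := by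
      rw [← Finset.sum_add_distrib, ← Finset.sum_add_distrib]
      refine Finset.sum_congr rfl fun i _ => ?_
      rw [← hf.degi m hm i]
      ring
    have h6 : ∑ i ∈ J, m (i, 1) ≤ a := by
      rw [← hf.dega m hm]
      exact Finset.sum_le_sum_of_subset (Finset.subset_univ J)
    have h7 : ∑ i ∈ J, m (i, 2) ≤ b := by
      rw [← hf.degb m hm]
      exact Finset.sum_le_sum_of_subset (Finset.subset_univ J)
    omega

theorem st_IA (hRA : ST_RA.{w}) (hGA : ST_GA.{w}) : ST_IA.{w} := by
  classical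
  intro K _ _ N t δ a b W f hf ht hW j J hJ
  obtain ⟨x, y, z, P, R, R', hxf, hP, hR, hR', hPt, hJe⟩ := hGA K N t ht f hf.ne j J hJ
  have h1 := hRA K N t δ a b W f hf hW (2 * j + 2) P R R' hP hR hR' hPt x y z
  have h2 := INEQ_le f _ _ (J.image (fun i => (i, (0 : Fin 3))) ∪
    J.image (fun i => (i, (2 : Fin 3)))) ?_ (∑ i ∈ J, δ i - a) ?_ hxf _ h1
  · omega
  · intro s hs
    rcases Finset.mem_union.mp hs with hs | hs
    · obtain ⟨i, hi, rfl⟩ := Finset.mem_image.mp hs
      have h3 := (hJe i hi).1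
      have h4 := hPt i
      change x i + R.eval (t i) / P.eval (t i) * y i = 0
      field_simp
      linear_combination h3
    · obtain ⟨i, hi, rfl⟩ := Finset.mem_image.mp hs
      have h3 := (hJe i hi).2
      have h4 := hPt i
      change z i + R'.eval (t i) / P.eval (t i) * y i = 0
      field_simp
      linear_combination h3
  · intro m hm
    rw [Finset.sum_union, Finset.sum_image (by intro i _ j _ h; exact (Prod.mk.inj h).1),
      Finset.sum_image (by intro i _ j _ h; exact (Prod.mk.inj h).1)]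
    · have h5 : ∑ i ∈ J, δ i = ∑ i ∈ J, m (i, 0) + (∑ i ∈ J, m (i, 1) + ∑ i ∈ J, m (i, 2)) := by
        rw [← Finset.sum_add_distrib, ← Finset.sum_add_distrib]
        refine Finset.sum_congr rfl fun i _ => ?_
        rw [← hf.degi m hm i]
        ring
      have h6 : ∑ i ∈ J, m (i, 1) ≤ a := by
        rw [← hf.dega m hm]
        exact Finset.sum_le_sum_of_subset (Finset.subset_univ J)
      omega
    · rw [Finset.disjoint_left]
      intro s h7 h8
      obtain ⟨i, -, rfl⟩ := Finset.mem_image.mp h7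
      obtain ⟨i', -, h9⟩ := Finset.mem_image.mp h8
      exact absurd (Prod.mk.inj h9).2 (by decide)

theorem st_IB (hRB : ST_RB.{w}) (hGB : ST_GB.{w}) : ST_IB.{w} := by
  classical
  intro K _ _ N t δ a b W f hf ht hW j J hJ
  obtain ⟨x, y, z, P, R, R', hxf, hP, hP0, hR, hR', hPt, hJe⟩ := hGB K N t ht f hf.ne j J hJ
  have h1 := hRB K N t δ a b W f hf hW j P R R' hP hR hR' hP0 hPt x y z
  have h2 := INEQ_le f _ _ (J.image fun i => (i, (2 : Fin 3))) ?_
    (∑ i ∈ J, δ i - (2 * a + W)) ?_ hxf _ h1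
  · have h3 : (j + 1) * W = j * W + W := by ring
    omega
  · intro s hs
    obtain ⟨i, hi, rfl⟩ := Finset.mem_image.mp hs
    have h3 := hJe i hi
    have h4 := hPt i
    change z i + (R'.eval (t i) / P.eval (t i) * x i + R.eval (t i) / P.eval (t i) * y i) = 0
    field_simp
    linear_combination h3
  · intro m hm
    rw [Finset.sum_image (by intro i _ j _ h; exact (Prod.mk.inj h).1)]
    have h5 : ∑ i ∈ J, m (i, 2) + ∑ i ∈ Jᶜ, m (i, 2) = b := by
      rw [← hf.degb m hm]
      exact Finset.sum_add_sum_compl J _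
    have h6 : ∑ i ∈ J, δ i + ∑ i ∈ Jᶜ, δ i = ∑ i, δ i := Finset.sum_add_sum_compl J _
    have h7 : ∑ i ∈ Jᶜ, m (i, 2) ≤ ∑ i ∈ Jᶜ, δ i := by
      refine Finset.sum_le_sum fun i _ => ?_
      rw [← hf.degi m hm i]
      omega
    omega

end Pool.Agent.Helper27.EC
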