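import Pool.Agent.Helper75.EC.Stmts

/-! # MAJ: the majorisation lemma -/

namespace Pool.Agent.Helper27.EC

open Pool.Agent.Helper75.EC Finset

theorem MAJ_abel (C g : ℕ → ℝ) (N : ℕ) (hC : ∀ i, i + 1 < N → C i ≤ C (i + 1))
    (hg : ∀ m, m ≤ N → ∑ i ∈ range m, g i ≤ 0) :
    ∀ m, m + 1 ≤ N → C m * ∑ i ∈ range (m + 1), g i ≤ ∑ i ∈ range (m + 1), C i * g i := by
  intro m
  induction m with
  | zero => intro _; simp
  | succ m ih =>
    intro hm
    rw [sum_range_succ (n := m + 1), sum_range_succ (n := m + 1)]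
    have h1 := ih (by omega)
    have h2 := hC m (by omega)
    have h3 := hg (m + 1) (by omega)
    nlinarith

theorem MAJ_abel' (C g : ℕ → ℝ) (N : ℕ) (hC : ∀ i, i + 1 < N → C i ≤ C (i + 1))
    (hg : ∀ m, m ≤ N → ∑ i ∈ range m, g i ≤ 0) (h0 : ∑ i ∈ range N, g i = 0) :
    0 ≤ ∑ i ∈ range N, C i * g i := by
  cases N with
  | zero => simp
  | succ N =>
    have := MAJ_abel C g (N + 1) hC hg N le_rfl
    rw [h0, mul_zero] at this
    exact this

theorem MAJ_count (k m : ℕ) : ∑ i ∈ range m, (if i < k then (1 : ℝ) else 0) = (min k m : ℕ) := by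
  rw [← sum_filter, sum_const, nsmul_eq_mul, mul_one]
  congr 1
  have : filter (fun i => i < k) (range m) = range (min k m) := by
    ext i
    simp only [mem_filter, mem_range]
    omega
  rw [this, card_range]

theorem st_MAJ : ST_MAJ := by
  classical
  intro N δ c π A hL hA
  let σ : Equiv.Perm (Fin N) := Tuple.sort c
  have hσ : Monotone (c ∘ σ) := Tuple.monotone_sort c
  let ext : (Fin N → ℝ) → ℕ → ℝ := fun F i => if h : i < N then F (σ ⟨i, h⟩) else 0
  have hext : ∀ (F : Fin N → ℝ) (i : Fin N), ext F i = F (σ i) := fun F i => by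
    simp only [ext, i.2, dite_true]
  let Kk : ℕ → Finset (Fin N) := fun m => univ.filter fun j : Fin N => ((σ.symm j : Fin N) : ℕ) < m
  have hK : ∀ (F : Fin N → ℝ) (m : ℕ), m ≤ N → ∑ j ∈ Kk m, F j = ∑ i ∈ range m, ext F i := by
    intro F m hm
    rw [sum_filter, ← Equiv.sum_comp σ]
    simp only [Equiv.symm_apply_apply]
    have h1 : ∀ i : Fin N, (if (i : ℕ) < m then F (σ i) else 0) =
        (fun i : ℕ => if i < m then ext F i else 0) i := fun i => by
      simp only [hext]
    rw [sum_congr rfl fun i _ => h1 i,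
      Fin.sum_univ_eq_sum_range (fun i : ℕ => if i < m then ext F i else 0) N, ← sum_filter]
    congr 1
    ext i
    simp only [mem_filter, mem_range]
    omega
  have hcard : ∀ m, m ≤ N → (Kk m).card = m := by
    intro m hm
    have h1 := hK (fun _ => 1) m hm
    have h2 : ∀ i ∈ range m, ext (fun _ => 1) i = 1 := fun i hi => by
      have : i < N := lt_of_lt_of_le (mem_range.mp hi) hm
      simp only [ext, this, dite_true]
    rw [sum_congr rfl h2] at h1
    simp only [sum_const, card_range, nsmul_eq_mul, mul_one] at h1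
    exact_mod_cast h1
  let q : ℕ → ℝ := fun i => ∑ k ∈ range (N + 1), π k * (if i < k then 1 else 0)
  have hq : ∀ m, ∑ i ∈ range m, q i = ∑ k ∈ range (N + 1), π k * (min k m : ℕ) := by
    intro m
    rw [sum_comm]
    refine sum_congr rfl fun k _ => ?_
    rw [← mul_sum, MAJ_count]
  have hsum : ∀ (F : Fin N → ℝ), ∑ i, F i = ∑ i ∈ range N, ext F i := by
    intro F
    rw [← hK F N le_rfl]
    refine sum_congr ?_ fun _ _ => rfl
    ext j
    simp only [Kk, mem_filter, mem_univ, true_and, Fin.is_lt]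
  have key : 0 ≤ ∑ i ∈ range N, ext c i * (ext δ i - q i) := by
    refine MAJ_abel' _ _ N ?_ ?_ ?_
    · intro i hi
      have h1 := hext c ⟨i, by omega⟩
      have h2 := hext c ⟨i + 1, hi⟩
      rw [show ((⟨i, by omega⟩ : Fin N) : ℕ) = i from rfl] at h1
      rw [show ((⟨i + 1, hi⟩ : Fin N) : ℕ) = i + 1 from rfl] at h2
      rw [h1, h2]
      exact hσ (Fin.mk_le_mk.mpr (Nat.le_succ i))
    · intro m hm
      rw [sum_sub_distrib, hq, ← hK δ m hm]
      have h1 := hL.maj (Kk m)
      rw [hcard m hm] at h1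
      linarith
    · rw [sum_sub_distrib, hq, ← hsum, ← hL.mean, sub_eq_zero]
      refine sum_congr rfl fun k hk => ?_
      rw [min_eq_left (Nat.lt_succ_iff.mp (mem_range.mp hk))]
  have h1 : ∑ i, c i * δ i = ∑ i ∈ range N, ext c i * ext δ i := by
    rw [hsum]
    refine sum_congr rfl fun i hi => ?_
    simp only [ext, mem_range.mp hi, dite_true]
  have h2 : ∑ i ∈ range N, ext c i * q i =
      ∑ k ∈ range (N + 1), π k * ∑ i ∈ range k, ext c i := by
    simp only [q, mul_sum]
    rw [sum_comm]
    refine sum_congr rfl fun k hk => ?_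
    have h3 : range k = filter (fun i => i < k) (range N) := by
      ext i
      have := mem_range.mp hk
      simp only [mem_filter, mem_range]
      omega
    rw [h3, sum_filter]
    refine sum_congr rfl fun i _ => ?_
    by_cases hi : i < k
    · simp only [hi, if_true, mul_one]; ring
    · simp only [hi, if_false, mul_zero]
  have h3 : 0 ≤ ∑ k ∈ range (N + 1), π k * (A k + ∑ i ∈ range k, ext c i) := by
    refine sum_nonneg fun k hk => ?_
    by_cases h0 : π k = 0
    · rw [h0, zero_mul]
    · refine mul_nonneg (hL.nonneg k) ?_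
      have hkN : k ≤ N := Nat.lt_succ_iff.mp (mem_range.mp hk)
      have h4 := hA (Kk k) (by rw [hcard k hkN]; exact h0)
      rw [hcard k hkN, hK c k hkN] at h4
      exact h4
  have h5 : ∑ i ∈ range N, ext c i * (ext δ i - q i) =
      ∑ i ∈ range N, ext c i * ext δ i - ∑ i ∈ range N, ext c i * q i := by
    rw [← sum_sub_distrib]
    exact sum_congr rfl fun i _ => by ring
  have h6 : ∑ k ∈ range (N + 1), π k * (A k + ∑ i ∈ range k, ext c i) =
      ∑ k ∈ range (N + 1), π k * A k + ∑ k ∈ range (N + 1), π k * ∑ i ∈ range k, ext c i := by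
    rw [← sum_add_distrib]
    exact sum_congr rfl fun i _ => by ring
  rw [h5, h2] at key
  rw [h6] at h3
  rw [h1]
  linarith

end Pool.Agent.Helper27.EC
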