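import Pool.Agent.Helper27.EC.INEQ

/-! # RB: the degree bound for `z += ξ ((R'/P) x + (R/P) y)` -/

open MvPolynomial

universe w

namespace Pool.Agent.Helper27.EC

open Pool.Agent.Helper75.EC

section

variable {K : Type w} [Field K] {N : ℕ}

theorem RB_trip_add (x y z z' : Fin N → K) (ξ : K) :
    (fun s => trip x y z s + ξ * trip 0 0 z' s) = trip x y (fun i => z i + ξ * z' i) := by
  funext ⟨i, k⟩
  fin_cases k <;> simp [trip]

theorem RB_trip_add' (z z' : Fin N → K) :
    (fun s => trip 0 0 z s + trip 0 0 z' s) = trip 0 0 (fun i => z i + z' i) := by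
  funext ⟨i, k⟩
  fin_cases k <;> simp [trip]

theorem RB_eval (f : MvPolynomial (Fin N × Fin 3) K) (x y z z' : Fin N → K) (ξ : K) :
    (pth f (trip x y z) (trip 0 0 z')).eval ξ = eval (trip x y (fun i => z i + ξ * z' i)) f := by
  rw [INEQ_pth_eval, RB_trip_add]

theorem RB_hom {t : Fin N → K} {δ : Fin N → ℕ} {a b : ℕ} {f : MvPolynomial (Fin N × Fin 3) K}
    (hf : Inv t δ a b f) (l x y z : Fin N → K) :
    eval (trip (fun i => l i * x i) (fun i => l i * y i) (fun i => l i * z i)) f =
      (∏ i, l i ^ δ i) * eval (trip x y z) f := by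
  rw [MvPolynomial.eval_eq', MvPolynomial.eval_eq', Finset.mul_sum]
  refine Finset.sum_congr rfl fun m hm => ?_
  rw [Fintype.prod_prod_type, Fintype.prod_prod_type]
  have h1 : ∀ i : Fin N, ∏ k : Fin 3,
      (trip (fun i => l i * x i) (fun i => l i * y i) (fun i => l i * z i) (i, k)) ^ m (i, k) =
      l i ^ δ i * ∏ k : Fin 3, (trip x y z (i, k)) ^ m (i, k) := by
    intro i
    rw [Fin.prod_univ_three, Fin.prod_univ_three]
    simp only [trip, Matrix.cons_val_zero, Matrix.cons_val_one, Matrix.cons_val]
    rw [← hf.degi m hm i, mul_pow, mul_pow, mul_pow, pow_add, pow_add]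
    ring
  rw [Finset.prod_congr rfl fun i _ => h1 i, Finset.prod_mul_distrib]
  ring

/-- several poles -/
theorem RB_poles [Infinite K] (hDIAG : ST_DIAG.{w}) (t : Fin N → K)
    (f : MvPolynomial (Fin N × Fin 3) K) (W : ℕ) {q : ℕ} (c r s : Fin q → K)
    (h : ∀ k, ∀ x y z : Fin N → K, (pth f (trip x y z) (trip 0 0
      (fun i => (r k * x i + s k * y i) / (t i - c k)))).natDegree ≤ W) (S : Finset (Fin q)) :
    ∀ x y z : Fin N → K, (pth f (trip x y z) (trip 0 0
      (fun i => ∑ k ∈ S, (r k * x i + s k * y i) / (t i - c k)))).natDegree ≤ S.card * W := by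
  classical
  induction S using Finset.induction_on with
  | empty =>
    intro x y z
    rw [Finset.card_empty, zero_mul, Nat.le_zero]
    have h1 : pth f (trip x y z) (trip 0 0 fun i => ∑ k ∈ (∅ : Finset (Fin q)),
        (r k * x i + s k * y i) / (t i - c k)) = Polynomial.C (eval (trip x y z) f) := by
      refine Polynomial.funext fun ξ => ?_
      rw [RB_eval]
      simp
    rw [h1, Polynomial.natDegree_C]
  | insert k S hk ih =>
    intro x y z
    have h1 := hDIAG K (Fin N × Fin 3) f (trip x y z)
      (trip 0 0 (fun i => (r k * x i + s k * y i) / (t i - c k)))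
      (trip 0 0 (fun i => ∑ k ∈ S, (r k * x i + s k * y i) / (t i - c k))) W (S.card * W)
      (fun η => by
        rw [RB_trip_add]
        exact h k _ _ _)
      (fun ξ => by
        rw [RB_trip_add]
        exact ih _ _ _)
    rw [RB_trip_add'] at h1
    have h2 : (fun i => ∑ k ∈ insert k S, (r k * x i + s k * y i) / (t i - c k)) =
        fun i => (r k * x i + s k * y i) / (t i - c k) +
          ∑ k ∈ S, (r k * x i + s k * y i) / (t i - c k) := by
      funext i
      rw [Finset.sum_insert hk]
    rw [h2, Finset.card_insert_of_notMem hk]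
    have h3 : (S.card + 1) * W = W + S.card * W := by ring
    rw [h3]
    exact h1

/-- partial fractions -/
theorem RB_frac {q : ℕ} (c : Fin q → K) (hc : Function.Injective c) (R : Polynomial K)
    (hR : R.degree < q) : ∃ ρ : Fin q → K, ∀ t : K, (∀ k, t ≠ c k) →
      R.eval t = (∏ k, (t - c k)) * ∑ k, ρ k / (t - c k) := by
  classical
  refine ⟨fun k => Lagrange.nodalWeight Finset.univ c k * R.eval (c k), fun t ht => ?_⟩
  have h1 : R = Lagrange.interpolate Finset.univ c fun k => R.eval (c k) := by
    refine Lagrange.eq_interpolate hc.injOn ?_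
    rw [Finset.card_univ, Fintype.card_fin]
    exact hR
  conv_lhs => rw [h1]
  rw [Lagrange.eval_interpolate_not_at_node _ fun k _ => ht k, Lagrange.eval_nodal]
  congr 1
  refine Finset.sum_congr rfl fun k _ => ?_
  rw [div_eq_mul_inv]
  ring

theorem RB_roots [IsAlgClosed K] (P : Polynomial K) (q : ℕ) (hP : P.natDegree = q) :
    ∃ c : Fin q → K, P = Polynomial.C P.leadingCoeff *
        ∏ k, (Polynomial.X - Polynomial.C (c k)) := by
  have h1 := (IsAlgClosed.splits P).eq_prod_roots
  have h2 : Multiset.card P.roots = q := by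
    rw [← hP]
    exact (IsAlgClosed.splits P).natDegree_eq_card_roots.symm
  have h3 : P.roots.toList.length = q := by rw [Multiset.length_toList, h2]
  refine ⟨fun k => P.roots.toList.get (k.cast h3.symm), ?_⟩
  conv_lhs => rw [h1]
  congr 1
  have h4 : (P.roots.map fun a => Polynomial.X - Polynomial.C a).prod =
      (P.roots.toList.map fun a => Polynomial.X - Polynomial.C a).prod := by
    conv_lhs => rw [← Multiset.coe_toList P.roots]
    rw [Multiset.map_coe, Multiset.prod_coe]
  rw [h4, ← List.prod_ofFn]
  congr 1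
  refine List.ext_get ?_ ?_
  · simp [h3]
  · intro n h5 h6
    simp

theorem RB_clear (f : MvPolynomial (Fin N × Fin 3) K) (D : Fin N → Polynomial K)
    (x y z v : Fin N → K) (ε : K) :
    pth f (fun s => (trip (fun i => D i * Polynomial.C (x i))
          (fun i => D i * Polynomial.C (y i)) (fun i => D i * Polynomial.C (z i)) s).eval ε)
          (fun s => (trip 0 0 (fun i => Polynomial.C (v i)) s).eval ε) =
        pth f (trip (fun i => (D i).eval ε * x i) (fun i => (D i).eval ε * y i)
          (fun i => (D i).eval ε * z i)) (trip 0 0 v) := by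
  congr 1
  · funext ⟨i, k⟩
    fin_cases k <;> simp [trip]
  · funext ⟨i, k⟩
    fin_cases k <;> simp [trip]

theorem RB_scale [Infinite K] {t : Fin N → K} {δ : Fin N → ℕ} {a b : ℕ}
    {f : MvPolynomial (Fin N × Fin 3) K} (hf : Inv t δ a b f) (l x y z v : Fin N → K)
    (hl : ∀ i, l i ≠ 0) :
    pth f (trip (fun i => l i * x i) (fun i => l i * y i) (fun i => l i * z i)) (trip 0 0 v) =
      Polynomial.C (∏ i, l i ^ δ i) * pth f (trip x y z) (trip 0 0 (fun i => v i / l i)) := by
  refine Polynomial.funext fun ξ => ?_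
  rw [RB_eval, Polynomial.eval_mul, Polynomial.eval_C, RB_eval, ← RB_hom hf]
  have hz : (fun i => l i * z i + ξ * v i) = fun i => l i * (z i + ξ * (v i / l i)) := by
    funext i
    have h9 := hl i
    field_simp
  rw [hz]

/-- a multiple of `x` is free -/
theorem RB_free [Infinite K] {t : Fin N → K} {δ : Fin N → ℕ} {a b : ℕ}
    {f : MvPolynomial (Fin N × Fin 3) K} (hf : Inv t δ a b f) (x y z v v' : Fin N → K) (γ : K)
    (hv : ∀ i, v' i = v i + γ * x i) :
    pth f (trip x y z) (trip 0 0 v') = pth f (trip x y z) (trip 0 0 v) := by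
  refine Polynomial.funext fun ξ => ?_
  rw [RB_eval, RB_eval, ← hf.invZ x y (fun i => z i + ξ * v i) (ξ * γ)]
  have hz : (fun i => z i + ξ * v' i) = fun i => z i + ξ * v i + ξ * γ * x i := by
    funext i
    rw [hv i]
    ring
  rw [hz]

end

theorem st_RB (hDB : ST_DB.{w}) (hDIAG : ST_DIAG.{w}) (hDENS : ST_DENS.{w}) : ST_RB.{w} := by
  classical
  intro K _ _ N t δ a b W f hf hW q P R R' hP hR hR' hP0 hPt x y z
  have hinf : Infinite K := inferInstance
  -- the case `deg R' < q`
  have main : ∀ R' : Polynomial K, R'.degree < q → (pth f (trip x y z) (trip 0 0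
      (fun i => R'.eval (t i) / P.eval (t i) * x i + R.eval (t i) / P.eval (t i) * y i))).natDegree
      ≤ q * W := by
    intro R' hR'
    -- the roots
    obtain ⟨c, hcP⟩ := RB_roots P q hP
    have hlead : P.leadingCoeff ≠ 0 := Polynomial.leadingCoeff_ne_zero.mpr hP0
    obtain ⟨e, he⟩ : ∃ e : Fin q → K, Function.Injective e :=
      ⟨fun k => Infinite.natEmbedding K k, fun k l h =>
        Fin.ext ((Infinite.natEmbedding K).injective h)⟩
    -- the deformed denominator at the points
    let D : Fin N → Polynomial K := fun i => Polynomial.C P.leadingCoeff *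
      ∏ k, (Polynomial.C (t i - c k) - Polynomial.X * Polynomial.C (e k))
    have hD : ∀ i ε, (D i).eval ε = P.leadingCoeff * ∏ k, (t i - (c k + ε * e k)) := by
      intro i ε
      simp only [D, Polynomial.eval_mul, Polynomial.eval_C, Polynomial.eval_prod,
        Polynomial.eval_sub, Polynomial.eval_X]
      congr 1
      exact Finset.prod_congr rfl fun k _ => by ring
    have hD0 : ∀ i, (D i).eval 0 = P.eval (t i) := by
      intro i
      rw [hD]
      conv_rhs => rw [hcP]
      simp only [Polynomial.eval_mul, Polynomial.eval_C, Polynomial.eval_prod,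
        Polynomial.eval_sub, Polynomial.eval_X, zero_mul, add_zero]
    let S : Set K := (Set.range fun kl : Fin q × Fin q => -(c kl.1 - c kl.2) / (e kl.1 - e kl.2)) ∪
      (Set.range fun ki : Fin q × Fin N => (t ki.2 - c ki.1) / e ki.1)
    have hS : S.Finite := (Set.finite_range _).union (Set.finite_range _)
    have hct : ∀ k i, c k ≠ t i := by
      intro k i h
      apply hPt i
      rw [hcP]
      simp only [Polynomial.eval_mul, Polynomial.eval_prod, Polynomial.eval_sub,
        Polynomial.eval_X, Polynomial.eval_C]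
      rw [Finset.prod_eq_zero (Finset.mem_univ k) (by rw [h, sub_self]), mul_zero]
    have hinj : ∀ ε, ε ∉ S → Function.Injective fun k => c k + ε * e k := by
      intro ε hε k l hkl
      by_contra hne
      apply hε
      refine Or.inl ⟨(k, l), ?_⟩
      have h1 : e k - e l ≠ 0 := sub_ne_zero.mpr fun h => hne (he h)
      have h2 : c k + ε * e k = c l + ε * e l := hkl
      change -(c k - c l) / (e k - e l) = ε
      rw [div_eq_iff h1]
      linear_combination -h2
    have hpole : ∀ ε, ε ∉ S → ∀ k i, t i ≠ c k + ε * e k := by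
      intro ε hε k i h
      by_cases h0 : e k = 0
      · rw [h0, mul_zero, add_zero] at h
        exact hct k i h.symm
      · apply hε
        refine Or.inr ⟨(k, i), ?_⟩
        change (t i - c k) / e k = ε
        rw [div_eq_iff h0]
        linear_combination h
    have hbound : ∀ ε, ε ∉ S → (pth f (trip (fun i => (D i).eval ε * x i)
        (fun i => (D i).eval ε * y i) (fun i => (D i).eval ε * z i))
        (trip 0 0 (fun i => R'.eval (t i) * x i + R.eval (t i) * y i))).natDegree ≤ q * W := by
      intro ε hε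
      have hDne : ∀ i, (D i).eval ε ≠ 0 := by
        intro i
        rw [hD]
        exact mul_ne_zero hlead (Finset.prod_ne_zero_iff.mpr fun k _ =>
          sub_ne_zero.mpr (hpole ε hε k i))
      rw [RB_scale hf _ x y z _ hDne]
      refine (Polynomial.natDegree_C_mul_le _ _).trans ?_
      obtain ⟨ρ, hρ⟩ := RB_frac (fun k => c k + ε * e k) (hinj ε hε) R hR
      obtain ⟨ρ', hρ'⟩ := RB_frac (fun k => c k + ε * e k) (hinj ε hε) R' hR'
      have h1 := RB_poles hDIAG t f W (fun k => c k + ε * e k)
        (fun k => ρ' k / P.leadingCoeff) (fun k => ρ k / P.leadingCoeff)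
        (fun k x y z => hDB K N t δ a b W f hf hW (c k + ε * e k) (hpole ε hε k) x y z _ _)
        Finset.univ x y z
      rw [Finset.card_univ, Fintype.card_fin] at h1
      refine le_trans (le_of_eq ?_) h1
      congr 3
      funext i
      rw [hρ (t i) fun k => hpole ε hε k i, hρ' (t i) fun k => hpole ε hε k i, hD]
      have h2 : (∏ k, (t i - (c k + ε * e k))) ≠ 0 := Finset.prod_ne_zero_iff.mpr fun k _ =>
          sub_ne_zero.mpr (hpole ε hε k i)
      have h3 : ∑ k, (ρ' k / P.leadingCoeff * x i + ρ k / P.leadingCoeff * y i) /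
          (t i - (c k + ε * e k)) =
          (∑ k, ρ' k / (t i - (c k + ε * e k))) * (x i / P.leadingCoeff) +
          (∑ k, ρ k / (t i - (c k + ε * e k))) * (y i / P.leadingCoeff) := by
        rw [Finset.sum_mul, Finset.sum_mul, ← Finset.sum_add_distrib]
        exact Finset.sum_congr rfl fun k _ => by ring
      rw [h3]
      field_simp
    have hfin := hDENS K (Fin N × Fin 3) f
      (trip (fun i => D i * Polynomial.C (x i)) (fun i => D i * Polynomial.C (y i))
        (fun i => D i * Polynomial.C (z i)))
      (trip 0 0 (fun i => Polynomial.C (R'.eval (t i) * x i + R.eval (t i) * y i))) (q * W) S hS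
      (fun ε hε => by rw [RB_clear]; exact hbound ε hε) 0
    have hDne0 : ∀ i, (D i).eval 0 ≠ 0 := fun i => by rw [hD0]; exact hPt i
    rw [RB_clear, RB_scale hf _ x y z _ hDne0, Polynomial.natDegree_C_mul
      (Finset.prod_ne_zero_iff.mpr fun i _ => pow_ne_zero _ (hDne0 i))] at hfin
    refine le_trans (le_of_eq ?_) hfin
    congr 3
    funext i
    rw [hD0]
    ring
  -- the general case
  obtain ⟨γ, R'', hR'', hRR⟩ : ∃ (γ : K) (R'' : Polynomial K), R''.degree < q ∧
      R' = Polynomial.C γ * P + R'' := by
    refine ⟨R'.coeff q / P.leadingCoeff, R' - Polynomial.C (R'.coeff q / P.leadingCoeff) * P,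
      ?_, by ring⟩
    have hlead : P.leadingCoeff ≠ 0 := Polynomial.leadingCoeff_ne_zero.mpr hP0
    rw [Polynomial.degree_lt_iff_coeff_zero]
    intro n hn
    rcases Nat.eq_or_lt_of_le hn with h1 | h1
    · rw [← h1, Polynomial.coeff_sub, Polynomial.coeff_C_mul]
      have h2 : P.coeff q = P.leadingCoeff := by rw [← hP]; rfl
      rw [h2]
      field_simp
      ring
    · rw [Polynomial.coeff_sub, Polynomial.coeff_C_mul,
        Polynomial.coeff_eq_zero_of_natDegree_lt (by omega),
        Polynomial.coeff_eq_zero_of_natDegree_lt (p := P) (by omega)]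
      ring
  refine le_trans (le_of_eq ?_) (main R'' hR'')
  rw [RB_free hf x y z (fun i => R''.eval (t i) / P.eval (t i) * x i +
    R.eval (t i) / P.eval (t i) * y i) _ γ fun i => ?_]
  rw [hRR]
  simp only [Polynomial.eval_add, Polynomial.eval_mul, Polynomial.eval_C]
  have := hPt i
  field_simp
  ring

end Pool.Agent.Helper27.EC
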